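import Mathlib
import Pool.Agent.H59.VC.Range
import Pool.Agent.H59.VC.Smooth

set_option autoImplicit false

open AlgebraicGeometry

universe u

namespace Pool.Agent.Results.MP_490634_ag.Classification

open Pool.Agent.Helper226 Pool.Agent.Helper17.VCG Pool.Agent.W455.Cub
open Pool.Agent.Results.MP_490634_ag.NotComponent

/-- being a component does not depend on the choice of the Hilbert scheme -/
lemma comp_tr {k : Type u} [Field k] {B : Type u} [CommRing B] [Algebra k B] {d : ℕ}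
    (𝓗₁ 𝓗₂ : HilbertScheme k B d) (P : Ideal B → Prop)
    (h : closure (𝓗₂.locus P) ∈ irreducibleComponents 𝓗₂.H) :
    closure (𝓗₁.locus P) ∈ irreducibleComponents 𝓗₁.H := by
  set e := hom12 𝓗₁ 𝓗₂ with he
  have h1 : e ⁻¹' (closure (𝓗₂.locus P)) = closure (𝓗₁.locus P) := by
    rw [e.preimage_closure, preimage_locus]
  rw [← h1]
  apply preimage_mem_irreducibleComponents h e.isOpenEmbedding
  rw [e.range_coe, Set.inter_univ]
  exact h.1.1

lemma sub_tr {k : Type u} [Field k] {B : Type u} [CommRing B] [Algebra k B] {d : ℕ}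
    (𝓗₁ 𝓗₂ : HilbertScheme k B d) (P Q : Ideal B → Prop)
    (h : 𝓗₂.locus P ⊆ closure (𝓗₂.locus Q)) :
    𝓗₁.locus P ⊆ closure (𝓗₁.locus Q) := by
  set e := hom12 𝓗₁ 𝓗₂ with he
  rw [← preimage_locus 𝓗₁ 𝓗₂ P, ← preimage_locus 𝓗₁ 𝓗₂ Q, ← e.preimage_closure]
  exact Set.preimage_mono h

/-- Let `k` be an algebraically closed field of characteristic zero, `n ≥ 4`,
`(n - 1) (n - 2) / 6 + 2 < r ≤ n (n + 1) / 2` and `d = 1 + n + r`. Let `𝓗` be the Hilbert scheme
of `d` points of affine `n`-space.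
(1) If `r ≥ n (n + 1) / 2 - n - 2` then `VC_{n, d}` is contained in the smoothable component.
(2) If `r > (n ^ 2 - 1) / 3` then the closure of `VC_{n, d}` is not an irreducible component.
(3) If `n ≥ 8` and `r < n (n + 1) / 2 - n - 2` then `VC_{n, d}` is not contained in the
smoothable component.
(4) If `n ≥ 8` and `r ≤ (n - 1) (n - 2) / 3` then the closure of `VC_{n, d}` is an irreducible
component. -/
theorem result (k : Type u) [Field k] [IsAlgClosed k] [CharZero k] (n r : ℕ) (hn : 4 ≤ n)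
    (h1 : (n - 1) * (n - 2) + 12 < 6 * r) (h2 : r ≤ (n + 1).choose 2) :
    Nonempty (HilbertScheme k (MvPolynomial (Fin n) k) (1 + n + r)) ∧
    ∀ 𝓗 : HilbertScheme k (MvPolynomial (Fin n) k) (1 + n + r),
      ((n + 1).choose 2 ≤ r + n + 2 →
        𝓗.locus (HasHF n r) ⊆ closure (𝓗.locus Ideal.IsRadical)) ∧
      (n ^ 2 < 3 * r + 1 →
        closure (𝓗.locus (HasHF n r)) ∉ irreducibleComponents 𝓗.H) ∧
      (8 ≤ n → r + n + 2 < (n + 1).choose 2 →
        ¬ (𝓗.locus (HasHF n r) ⊆ closure (𝓗.locus Ideal.IsRadical))) ∧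
      (8 ≤ n → 3 * r ≤ (n - 1) * (n - 2) →
        closure (𝓗.locus (HasHF n r)) ∈ irreducibleComponents 𝓗.H) := by
  refine ⟨⟨hilb k (MvPolynomial (Fin n) k) (1 + n + r)⟩, fun 𝓗 => ⟨fun h3 => ?_, fun h3 h => ?_,
    fun h8 h3 h => ?_, fun h8 h3 => ?_⟩⟩
  · exact sub_tr 𝓗 _ _ _ (H59.VC.smooth_range k n r hn (by omega) h2 h3)
  · obtain ⟨𝓗₀, h4, -, -⟩ := NotComponent.result k n r hn (by omega) h2
    exact h4 h3 (comp_tr 𝓗₀ 𝓗 _ h)
  · obtain ⟨𝓗₀, -, -, h4⟩ := NotComponent.result k n r hn (by omega) h2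
    exact h4 h8 (by omega) (by omega) (sub_tr 𝓗₀ 𝓗 _ _ h)
  · exact comp_tr 𝓗 _ _ (H59.VC.comp_range k n r h8 h1 h3)

end Pool.Agent.Results.MP_490634_ag.Classification
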